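import Pool.Agent.Helper29.UG.Props

/-!
# MP_b55b7c_an, packet MidC: approximate midpoints for the comparison function
-/

open scoped ENNReal NNReal InnerProductSpace ComplexOrder
open Filter Topology

attribute [-instance] CStarMatrix.instAlgebra CStarMatrix.instModule CStarMatrix.instSMul
  CStarMatrix.instMulAction CStarMatrix.instDistribMulAction

noncomputable section
namespace RC
universe u

theorem midC83 (hN : HNetP.{u}) (hA : AppP.{u}) : MidCP.{u} := by
  intro A _ _ _ G α hE a b y₀ y₁ ε hε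
  obtain ⟨Λ, l, y, hl, hy⟩ := hN A G α hE
  obtain ⟨hc, hop, hmix, hlim⟩ := hA A G α Λ l y hy
  have hY := hmix y₀ y₁
  have hYs := (hop _ _ _ _ _ _ hY hY).2.2.2
  have h1 := (hop _ _ _ _ _ _ hYs (hc b)).1
  have h2 := (hop _ _ _ _ _ _ h1 hY).1
  have h3 := (hop _ _ _ _ _ _ (hc a) h2).2.2.1
  have h3s := (hop _ _ _ _ _ _ h3 h3).2.2.2
  have h4 := (hop _ _ _ _ _ _ h3s h3).1
  have h5 := hlim _ _ _ h4 ε hε
  obtain ⟨t, ht⟩ := h5.exists
  refine ⟨y t * y₀ * y t + (1 - y t) * y₁ * (1 - y t), fun φ hφ => ?_⟩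
  have h6 := ht φ hφ
  have h7 := (le_abs_self _).trans ((Complex.abs_re_le_norm _).trans h6)
  rw [Complex.sub_re] at h7
  have h8 : ((φ.φ (star (a - star y₀ * b * y₀) * (a - star y₀ * b * y₀)) +
      φ.φ (star (a - star y₁ * b * y₁) * (a - star y₁ * b * y₁))) / 2).re =
      ((φ.φ (star (a - star y₀ * b * y₀) * (a - star y₀ * b * y₀))).re +
        (φ.φ (star (a - star y₁ * b * y₁) * (a - star y₁ * b * y₁))).re) / 2 := by
    rw [show (2 : ℂ) = ((2 : ℝ) : ℂ) by norm_num, Complex.div_ofReal_re, Complex.add_re]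
  rw [h8] at h7
  linarith

end RC
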